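import Pool.Agent.W169.AF.Stm
import Pool.Agent.H429R2.GP.XF
import Pool.Agent.H855R2.SF.Dir

set_option autoImplicit false
set_option linter.unusedSectionVars false

/-!
Project AF, part SYM: the completed L-function of a primitive Dirichlet character is entire and,
after multiplication by a suitable constant of absolute value one, symmetric with respect to the
critical line.
-/

namespace Pool.Agent.W361.AF

open Complex Filter Topology Set
open Pool.Agent.W169.AF (LC LF PC Sy S_SYM)
open scoped ComplexConjugate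

section
variable {N : ℕ} [NeZero N] {χ : DirichletCharacter ℂ N}

theorem aa_re_nonneg1 : 0 ≤ (H370.DL.aa χ).re := by
  unfold H370.DL.aa
  split_ifs <;> simp

theorem completed_eq (hN : 1 < N) {s : ℂ} (hs : 0 < s.re) :
    DirichletCharacter.completedLFunction χ s =
      Gammaℝ (s + H370.DL.aa χ) * DirichletCharacter.LFunction χ s := by
  rw [DirichletCharacter.LFunction_eq_completed_div_gammaFactor χ s (Or.inr (by omega)),
    H370.DL.gammaFactor_eq]
  have h : Gammaℝ (s + H370.DL.aa χ) ≠ 0 := by
    apply Gammaℝ_ne_zero_of_re_pos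
    have := aa_re_nonneg1 (χ := χ)
    rw [add_re]
    linarith
  field_simp

theorem completed_conj (hN : 1 < N) (h1 : χ ≠ 1) (s : ℂ) :
    DirichletCharacter.completedLFunction χ⁻¹ (conj s) =
      conj (DirichletCharacter.completedLFunction χ s) := by
  have h2 : χ⁻¹ ≠ 1 := inv_ne_one.2 h1
  have hd1 := DirichletCharacter.differentiable_completedLFunction h1
  have hd2 := DirichletCharacter.differentiable_completedLFunction h2
  have hA : AnalyticOnNhd ℂ
      (fun s => conj (DirichletCharacter.completedLFunction χ⁻¹ (conj s))) univ := by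
    intro z _
    have hd : Differentiable ℂ
        (fun s => conj (DirichletCharacter.completedLFunction χ⁻¹ (conj s))) := by
      intro w
      have h3 := (hd2 (conj w)).hasDerivAt.conj_conj
      rw [Complex.conj_conj] at h3
      exact h3.differentiableAt
    exact hd.analyticAt z
  have hB : AnalyticOnNhd ℂ (DirichletCharacter.completedLFunction χ) univ :=
    fun z _ => hd1.analyticAt z
  have hev : (fun s => conj (DirichletCharacter.completedLFunction χ⁻¹ (conj s))) =ᶠ[𝓝 (2 : ℂ)]
      DirichletCharacter.completedLFunction χ := by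
    have hmem : {z : ℂ | 0 < z.re} ∈ 𝓝 (2 : ℂ) :=
      (isOpen_lt continuous_const continuous_re).mem_nhds (by simp)
    filter_upwards [hmem] with z hz
    have hz' : 0 < z.re := hz
    rw [completed_eq hN (χ := χ⁻¹) (s := conj z) (by simpa using hz'), completed_eq hN hz',
      H855R2.SF.LFunction_conj' h1, map_mul, Complex.conj_conj]
    congr 1
    have haa : H370.DL.aa χ⁻¹ = H370.DL.aa χ := by
      unfold H370.DL.aa
      by_cases h : χ.Even
      · rw [if_pos h, if_pos (H370.DL.inv_even_iff.2 h)]
      · rw [if_neg h, if_neg (fun h2 => h (H370.DL.inv_even_iff.1 h2))]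
    rw [haa, ← H429.GP.Gammaℝ_conj, map_add, Complex.conj_conj]
    congr 2
    unfold H370.DL.aa
    split_ifs <;> simp
  have h4 := hA.eqOn_of_preconnected_of_eventuallyEq hB isPreconnected_univ (mem_univ _) hev
    (mem_univ s)
  have h5 := congrArg conj h4
  simp only [Complex.conj_conj] at h5
  exact h5

theorem natpow_conj (s : ℂ) : conj ((N : ℂ) ^ (conj s)) = (N : ℂ) ^ s := by
  have h1 : ((N : ℕ) : ℂ).arg ≠ Real.pi := by
    rw [Complex.natCast_arg]
    exact Real.pi_ne_zero.symm
  have e3 := Complex.cpow_conj (N : ℂ) s h1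
  rw [Complex.conj_natCast] at e3
  rw [e3, Complex.conj_conj]

/-- The symmetric form of the functional equation. -/
theorem fe (hN : 1 < N) (hχ : χ.IsPrimitive) (s : ℂ) :
    (N : ℂ) ^ ((1 - s) / 2) * DirichletCharacter.completedLFunction χ (1 - s) =
      DirichletCharacter.rootNumber χ *
        conj ((N : ℂ) ^ ((conj s) / 2) * DirichletCharacter.completedLFunction χ (conj s)) := by
  have h1 : χ ≠ 1 := H855R2.SF.ne_one_of_prim hN hχ
  have hN0 : (N : ℂ) ≠ 0 := by exact_mod_cast (by omega : N ≠ 0)
  rw [hχ.completedLFunction_one_sub s, map_mul, ← completed_conj hN h1, Complex.conj_conj]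
  have e1 : conj ((N : ℂ) ^ (conj s / 2)) = (N : ℂ) ^ (s / 2) := by
    rw [← natpow_conj (s / 2)]
    congr 3
    rw [map_div₀, map_ofNat]
  rw [e1]
  have e2 : (N : ℂ) ^ (s / 2) = (N : ℂ) ^ ((1 - s) / 2) * (N : ℂ) ^ (s - 1 / 2) := by
    rw [← Complex.cpow_add _ _ hN0]
    congr 1
    ring
  rw [e2]
  ring

end

/-- A unimodular number has a unimodular square root of its conjugate. -/
theorem exists_root {W : ℂ} (hW : ‖W‖ = 1) : ∃ ω : ℂ, ‖ω‖ = 1 ∧ ω * W = conj ω := by
  obtain ⟨ω, hω⟩ := IsAlgClosed.exists_pow_nat_eq (conj W) (n := 2) (by norm_num)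
  have h1 : ‖ω‖ ^ 2 = 1 := by
    rw [← norm_pow, hω, RCLike.norm_conj, hW]
  have h2 : ‖ω‖ = 1 := by
    have h3 := norm_nonneg ω
    nlinarith
  refine ⟨ω, h2, ?_⟩
  have h4 : W = conj ω ^ 2 := by
    rw [← map_pow, hω, Complex.conj_conj]
  have h5 : ω * conj ω = 1 := by
    rw [Complex.mul_conj, Complex.normSq_eq_norm_sq, h1]
    simp
  rw [h4]
  calc ω * conj ω ^ 2 = (ω * conj ω) * conj ω := by ring
    _ = conj ω := by rw [h5, one_mul]

theorem sym : S_SYM := by
  intro q hq χ hχ
  have hq0 : q ≠ 0 := by omega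
  have : NeZero q := ⟨hq0⟩
  have hp : χ.IsPrimitive := by
    classical
    unfold PC at hχ
    simpa using hχ
  have h1 : χ ≠ 1 := H855R2.SF.ne_one_of_prim (by omega) hp
  have eLC : LC q χ = fun s => (q : ℂ) ^ (s / 2) * DirichletCharacter.completedLFunction χ s := by
    funext s
    unfold LC
    rw [dif_neg hq0]
  have eLF : LF q χ = DirichletCharacter.LFunction χ := by
    funext s
    unfold LF
    rw [dif_neg hq0]
  have hqC : (q : ℂ) ≠ 0 := by exact_mod_cast hq0
  refine ⟨?_, ?_, ?_⟩
  · rw [eLC]
    refine Differentiable.mul ?_ (DirichletCharacter.differentiable_completedLFunction h1)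
    intro s
    exact DifferentiableAt.const_cpow (by fun_prop) (Or.inl hqC)
  · rw [eLF]
    exact DirichletCharacter.differentiable_LFunction h1
  · intro t0
    obtain ⟨ω, hω, h2⟩ := exists_root (H429.GP.norm_rootNumber hp)
    refine ⟨ω, hω, ?_⟩
    intro w
    rw [eLC]
    have h3 := fe (N := q) (by omega) hp (1 / 2 - I * t0 + conj w)
    have e1 : (1 : ℂ) - (1 / 2 - I * t0 + conj w) = 1 / 2 + I * t0 - conj w := by ring
    have e2 : conj ((1 : ℂ) / 2 - I * t0 + conj w) = 1 / 2 + I * t0 + w := by
      rw [map_add, map_sub, map_mul, Complex.conj_conj, Complex.conj_I, Complex.conj_ofReal,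
        map_div₀, map_one, map_ofNat]
      ring
    rw [e1, e2] at h3
    show ω * ((q : ℂ) ^ ((1 / 2 + I * t0 - conj w) / 2) *
        DirichletCharacter.completedLFunction χ (1 / 2 + I * t0 - conj w)) =
      conj (ω * ((q : ℂ) ^ ((1 / 2 + I * t0 + w) / 2) *
        DirichletCharacter.completedLFunction χ (1 / 2 + I * t0 + w)))
    rw [h3, map_mul conj ω, ← h2]
    ring

end Pool.Agent.W361.AF
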